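import Pool.Agent.H.MP_a51306_an.B

set_option autoImplicit false
set_option linter.unusedSectionVars false
set_option linter.unusedSimpArgs false

namespace Pool.Agent.H.MP_5f0000_al

open Pool.Agent.H.MP_a51306_an
open scoped MatrixGroups

variable {A : Type} [CStarAlgebra A]

lemma proj_norm {f : A} (sf : star f = f) (ff : f * f = f) : ‖f‖ ≤ 1 := by
  have h := CStarRing.norm_star_mul_self (x := f)
  rw [sf, ff] at h
  nlinarith [norm_nonneg f]

lemma tp (u v e : A) (su : star u = u) (sv : star v = v) (se : star e = e) (uu : u * u = u)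
    (vv : v * v = v) (ee : e * e = e) (eu : e * u = e) (ue : u * e = e) (ev : e * v = e)
    (ve : v * e = e) (h : ‖u * v * u * (1 - e)‖ ≤ 0.1225) :
    (1 - u) * (1 - v) + (1 - v) * (1 - u) + (0.48 : ℝ) • ((1 - u) + (1 - v)) ∈ Sos A := by
  let _ := CStarAlgebra.spectralOrder A
  have := CStarAlgebra.spectralOrderedRing A
  refine StarOrderedRing.nonneg_iff.1 ?_
  have vv' : ∀ x, v * (v * x) = v * x := fun x => by rw [← mul_assoc, vv]
  have ev' : ∀ x, e * (v * x) = e * x := fun x => by rw [← mul_assoc, ev]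
  have h1 : ‖(v - e) * (u - e)‖ ≤ 0.35 := by
    have h2 := CStarRing.norm_star_mul_self (x := (v - e) * (u - e))
    have h3 : star ((v - e) * (u - e)) * ((v - e) * (u - e)) = u * v * u * (1 - e) := by
      simp only [star_mul, star_sub, su, sv, se, mul_sub, sub_mul, mul_assoc, uu, vv, ee, eu, ue,
        ev, ve, vv', ev', mul_one]
      abel
    rw [h3] at h2
    nlinarith [norm_nonneg ((v - e) * (u - e))]
  have h2 : ‖(u - e) * (v - e)‖ ≤ 0.35 := by
    rw [← norm_star, star_mul, star_sub, star_sub, su, sv, se]; exact h1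
  obtain ⟨s, hs⟩ : ∃ s, s = (u - e) + (v - e) := ⟨_, rfl⟩
  have ss : IsSelfAdjoint s := by rw [IsSelfAdjoint, hs, star_add, star_sub, star_sub, su, sv, se]
  have h3 : s * s = s + (u - e) * (v - e) + (v - e) * (u - e) := by
    simp only [hs, mul_sub, sub_mul, mul_add, add_mul, uu, vv, ee, eu, ue, ev, ve]; abel
  have h4 : ‖s‖ ≤ 1.48 := by
    have h5 := CStarRing.norm_star_mul_self (x := s)
    rw [ss.star_eq, h3] at h5
    have h6 := norm_add₃_le (a := s) (b := (u - e) * (v - e)) (c := (v - e) * (u - e))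
    nlinarith [norm_nonneg s]
  have h5 : 0 ≤ (1.48 : ℝ) • (1 : A) - s := by
    rw [sub_nonneg, ← Algebra.algebraMap_eq_smul_one]
    refine ss.le_algebraMap_norm_self.trans ?_
    rw [← sub_nonneg, ← map_sub, Algebra.algebraMap_eq_smul_one]
    exact smul_nonneg (by linarith) zero_le_one
  have h6 := star_left_conjugate_nonneg (add_nonneg (star_mul_self_nonneg ((1.48 : ℝ) • (1 : A) - s))
    (smul_nonneg (show (0 : ℝ) ≤ 0.52 by norm_num) h5)) (1 - e)
  convert h6 using 1
  have eu' : ∀ x, e * (u * x) = e * x := fun x => by rw [← mul_assoc, eu]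
  simp only [hs, star_sub, star_add, star_smul, star_one, star_trivial, su, sv, se, mul_sub,
    sub_mul, mul_add, add_mul, mul_assoc, uu, vv, ee, eu, ue, ev, ve, mul_one, one_mul,
    smul_mul_assoc, mul_smul_comm, eu', ev']
  module

variable {F : Type} [Field F] [Fintype F] [DecidableEq F]

def up (s : F) : SL(2, F) := ⟨!![1, s; 0, 1], by simp [Matrix.det_fin_two]⟩
def lo (s : F) : SL(2, F) := ⟨!![1, 0; s, 1], by simp [Matrix.det_fin_two]⟩

lemma up_val (s : F) : (up s).1 = !![1, s; 0, 1] := rfl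
lemma lo_val (s : F) : (lo s).1 = !![1, 0; s, 1] := rfl

lemma up_add (a b : F) : up a * up b = up (a + b) := Subtype.ext (by
  rw [Matrix.SpecialLinearGroup.coe_mul]; simp [up_val, add_comm])

lemma lo_add (a b : F) : lo a * lo b = lo (a + b) := Subtype.ext (by
  rw [Matrix.SpecialLinearGroup.coe_mul]; simp [lo_val])

lemma ulu (s b t : F) : (up s * lo b * up t).1 = !![1 + s * b, t + s * b * t + s; b, b * t + 1] := by
  rw [Matrix.SpecialLinearGroup.coe_mul, Matrix.SpecialLinearGroup.coe_mul, up_val, up_val, lo_val]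
  ext i j
  fin_cases i <;> fin_cases j <;> simp [Matrix.mul_apply, Fin.sum_univ_two]
  ring

lemma bruhat (g : SL(2, F)) (h : g 1 0 ≠ 0) :
    up ((g 0 0 - 1) / g 1 0) * lo (g 1 0) * up ((g 1 1 - 1) / g 1 0) = g := by
  have hd := g.det_coe
  rw [Matrix.det_fin_two] at hd
  refine Subtype.ext ?_
  rw [ulu]
  ext i j
  fin_cases i <;> fin_cases j <;> simp <;> field_simp
  · ring
  · linear_combination hd
  · ring

lemma sl_gen {G : Type} [Group G] (f : SL(2, F) →* G) (S : Subgroup G) (h1 : ∀ s, f (up s) ∈ S)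
    (h2 : ∀ s, f (lo s) ∈ S) (g : SL(2, F)) : f g ∈ S := by
  have key : ∀ g : SL(2, F), g 1 0 ≠ 0 → f g ∈ S := fun g h => by
    rw [← bruhat g h, map_mul, map_mul]; exact mul_mem (mul_mem (h1 _) (h2 _)) (h1 _)
  by_cases h : g 1 0 = 0
  · have hd := g.det_coe
    rw [Matrix.det_fin_two, h] at hd
    have := mul_mem (key (g * lo 1) (by
      intro h0
      rw [Matrix.SpecialLinearGroup.coe_mul, lo_val] at h0
      simp [Matrix.mul_apply, Fin.sum_univ_two, h] at h0
      simp [h0] at hd)) (inv_mem (h2 1))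
    simpa using this
  · exact key g h

lemma sl_tp (hF : 17 ≤ Fintype.card F) (π : SL(2, F) →* A) (hπ : ∀ g, star (π g) = π g⁻¹) :
    (1 - avg fun s => π (up s)) * (1 - avg fun s => π (lo s)) +
      (1 - avg fun s => π (lo s)) * (1 - avg fun s => π (up s)) +
      (0.48 : ℝ) • ((1 - avg fun s => π (up s)) + (1 - avg fun s => π (lo s))) ∈ Sos A := by
  have o1 := one_of π hπ up up_add
  have o2 := one_of π hπ lo lo_add
  obtain ⟨e, he⟩ : ∃ e, e = (Fintype.card SL(2, F) : ℝ)⁻¹ • ∑ g, π g := ⟨_, rfl⟩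
  have hN : (Fintype.card SL(2, F) : ℝ) ≠ 0 := by exact_mod_cast Fintype.card_ne_zero
  have l : ∀ g, π g * e = e := fun g => by
    rw [he, mul_smul_comm, Finset.mul_sum]
    simp only [← map_mul]
    rw [← Equiv.sum_comp (Equiv.mulLeft g) π]; rfl
  have se : star e = e := by
    rw [he, star_smul, star_trivial, star_sum]
    simp only [hπ]
    rw [← Equiv.sum_comp (Equiv.inv _) π]; rfl
  have r : ∀ g, e * π g = e := fun g => by
    have := congrArg star (l g⁻¹)
    rwa [star_mul, se, hπ, inv_inv] at this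
  have ee : e * e = e := by
    conv_lhs => lhs; rw [he]
    rw [smul_mul_assoc, Finset.sum_mul]
    simp only [l]
    rw [Finset.sum_const, Finset.card_univ, ← Nat.cast_smul_eq_nsmul ℝ, smul_smul,
      inv_mul_cancel₀ hN, one_smul]
  refine tp _ _ e o1.sa o2.sa se o1.idem o2.idem ee ?_ ?_ ?_ ?_ ?_
  · rw [mul_avg]; simp only [r]; exact avg_const _
  · rw [avg_mul]; simp only [l]; exact avg_const _
  · rw [mul_avg]; simp only [r]; exact avg_const _
  · rw [avg_mul]; simp only [l]; exact avg_const _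
  have n1 : ∀ g, ‖π g‖ ≤ 1 := fun g => by
    have h := CStarRing.norm_star_mul_self (x := π g)
    rw [hπ, ← map_mul, inv_mul_cancel, map_one] at h
    nlinarith [norm_nonneg (π g), norm_one_le (A := A)]
  have nf : ‖1 - e‖ ≤ 1 := proj_norm (by rw [star_sub, star_one, se])
    (by simp only [mul_sub, sub_mul, ee, mul_one, one_mul]; abel)
  have e1 : (avg fun s => π (up s)) * (avg fun s => π (lo s)) * (avg fun s => π (up s)) =
      ((Fintype.card F : ℝ)⁻¹) ^ 3 • ∑ p : F × F × F, π (up p.1 * lo p.2.1 * up p.2.2) := by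
    simp only [avg, smul_mul_smul_comm, Finset.sum_mul, Finset.mul_sum, Fintype.sum_prod_type,
      map_mul]
    congr 1
    · ring
    · rw [Finset.sum_comm]
      conv_lhs => enter [2, b]; rw [Finset.sum_comm]
      rw [Finset.sum_comm]
  have e2 : ∑ p ∈ Finset.univ.filter (fun p : F × F × F => ¬ p.2.1 = 0),
      π (up p.1 * lo p.2.1 * up p.2.2) =
      ∑ g ∈ Finset.univ.filter (fun g : SL(2, F) => ¬ g 1 0 = 0), π g := by
    refine Finset.sum_nbij' (fun p => up p.1 * lo p.2.1 * up p.2.2)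
      (fun g => ((g 0 0 - 1) / g 1 0, g 1 0, (g 1 1 - 1) / g 1 0)) ?_ ?_ ?_ ?_ ?_
    · intro p hp
      have : (up p.1 * lo p.2.1 * up p.2.2) 1 0 = p.2.1 := by
        rw [ulu]; rfl
      simpa [this] using hp
    · intro g hg; simpa using hg
    · intro p hp
      have h0 : p.2.1 ≠ 0 := by simpa using hp
      change (((up p.1 * lo p.2.1 * up p.2.2).1 0 0 - 1) / (up p.1 * lo p.2.1 * up p.2.2).1 1 0,
        (up p.1 * lo p.2.1 * up p.2.2).1 1 0,
        ((up p.1 * lo p.2.1 * up p.2.2).1 1 1 - 1) / (up p.1 * lo p.2.1 * up p.2.2).1 1 0) = p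
      rw [ulu]
      ext <;> simp [h0]
    · intro g hg; exact bruhat g (by simpa using hg)
    · intro p _; rfl
  have e3 : (∑ g, π g) * (1 - e) = 0 := by
    rw [Finset.sum_mul, ← Finset.sum_mul, mul_sub, mul_one, Finset.sum_mul]
    simp only [l]
    rw [Finset.sum_const, Finset.card_univ, ← Nat.cast_smul_eq_nsmul ℝ, he, smul_smul,
      mul_inv_cancel₀ hN, one_smul, sub_self]
  have e4 : (∑ p : F × F × F, π (up p.1 * lo p.2.1 * up p.2.2)) * (1 - e) =
      (∑ p ∈ Finset.univ.filter (fun p : F × F × F => p.2.1 = 0),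
        π (up p.1 * lo p.2.1 * up p.2.2) -
      ∑ g ∈ Finset.univ.filter (fun g : SL(2, F) => g 1 0 = 0), π g) * (1 - e) := by
    rw [← Finset.sum_filter_add_sum_filter_not _ (fun p : F × F × F => p.2.1 = 0), e2]
    rw [← Finset.sum_filter_add_sum_filter_not _ (fun g : SL(2, F) => g 1 0 = 0)] at e3
    rw [← sub_eq_zero, ← sub_mul, ← e3]; congr 1; abel
  have c1 : (Finset.univ.filter (fun p : F × F × F => p.2.1 = 0)).card ≤ Fintype.card (F × F) :=
    Finset.card_le_card_of_injOn (fun p => (p.1, p.2.2)) (fun _ _ => Finset.mem_univ _) (by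
      intro p hp p' hp' h
      simp only [Finset.coe_filter, Finset.mem_univ, true_and, Set.mem_ofPred_eq,
        Prod.mk.injEq] at hp hp' h
      exact Prod.ext h.1 (Prod.ext (hp.trans hp'.symm) h.2))
  have c2 : (Finset.univ.filter (fun g : SL(2, F) => g 1 0 = 0)).card ≤ Fintype.card (F × F) :=
    Finset.card_le_card_of_injOn (fun g => (g 0 0, g 0 1)) (fun _ _ => Finset.mem_univ _) (by
      intro g hg g' hg' h
      simp only [Finset.coe_filter, Finset.mem_univ, true_and, Set.mem_ofPred_eq,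
        Prod.mk.injEq] at hg hg' h
      have hd := g.det_coe
      have hd' := g'.det_coe
      rw [Matrix.det_fin_two] at hd hd'
      rw [hg] at hd; rw [hg', ← h.1] at hd'
      ext i j
      fin_cases i <;> fin_cases j
      · exact h.1
      · exact h.2
      · exact hg.trans hg'.symm
      · change g 1 1 = g' 1 1
        linear_combination (g 1 1) * hd'.symm + (g' 1 1) * hd)
  have b : ∀ {I : Type} (s : Finset I) (f : I → SL(2, F)), s.card ≤ Fintype.card (F × F) →
      ‖∑ i ∈ s, π (f i)‖ ≤ (Fintype.card F : ℝ) ^ 2 := fun s f hs => by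
    refine (norm_sum_le _ _).trans ((Finset.sum_le_card_nsmul _ _ 1 fun i _ => n1 _).trans ?_)
    rw [nsmul_one, sq]
    rw [Fintype.card_prod] at hs
    exact_mod_cast hs
  have hq : (17 : ℝ) ≤ Fintype.card F := by exact_mod_cast hF
  rw [e1, smul_mul_assoc, e4, norm_smul, Real.norm_of_nonneg (by positivity)]
  have b2 := (norm_mul_le _ _).trans (mul_le_mul ((norm_sub_le _ _).trans
    (add_le_add (b _ (fun p : F × F × F => up p.1 * lo p.2.1 * up p.2.2) c1) (b _ id c2))) nf
    (norm_nonneg _) (by positivity))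
  refine (mul_le_mul_of_nonneg_left b2 (by positivity)).trans ?_
  have : ((Fintype.card F : ℝ)⁻¹) ^ 3 * (((Fintype.card F : ℝ) ^ 2 + (Fintype.card F : ℝ) ^ 2) * 1)
      = 2 / Fintype.card F := by field_simp; ring
  rw [this, div_le_iff₀ (by linarith)]
  linarith

theorem propT (hF : 17 ≤ Fintype.card F) {G : Type} [Group G] (X : Fin 3 → F → G)
    (hX : Subgroup.closure {g | ∃ i s, X i s = g} = ⊤)
    (hf : ∀ i j, i < j → ∃ f : SL(2, F) →* G, (∀ s, f (up (-s)) = X i s) ∧ ∀ s, f (lo s) = X j s)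
    (H : Type) [NormedAddCommGroup H] [InnerProductSpace ℂ H] [CompleteSpace H]
    (ρ : G →* unitary (H →L[ℂ] H))
    (h : ∀ (S : Finset G) (ε : ℝ), 0 < ε →
      ∃ v : H, ‖v‖ = 1 ∧ ∀ s ∈ S, ‖(ρ s : H →L[ℂ] H) v - v‖ < ε) :
    ∃ v : H, v ≠ 0 ∧ ∀ g : G, (ρ g : H →L[ℂ] H) v = v := by
  classical
  let π : G →* (H →L[ℂ] H) := (unitary _).subtype.comp ρ
  have hπ : ∀ g, star (π g) = π g⁻¹ := fun g => by
    change star (ρ g : H →L[ℂ] H) = ρ g⁻¹
    rw [map_inv]; rfl
  have ad : ∀ i a b, X i a * X i b = X i (a + b) := fun i a b => by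
    by_cases hi : i < 2
    · obtain ⟨f, h1, -⟩ := hf i 2 hi
      rw [← h1, ← h1, ← h1, ← map_mul, up_add, neg_add]
    · obtain ⟨f, -, h1⟩ := hf 0 i (by omega)
      rw [← h1, ← h1, ← h1, ← map_mul, lo_add]
  have o := fun i => one_of π hπ (X i) (ad i)
  let Q : Fin 3 → (H →L[ℂ] H) := fun i => 1 - avg fun a => π (X i a)
  have S : ∀ i j, i < j → Q i * Q j + Q j * Q i + (0.48 : ℝ) • (Q i + Q j) ∈ Sos _ := by
    intro i j hij
    obtain ⟨f, h1, h2⟩ := hf i j hij
    have := sl_tp hF (π.comp f) fun g => by simp [hπ]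
    rw [← avg_equiv (fun s => π.comp f (up s)) (Equiv.neg F)] at this
    simpa only [MonoidHom.comp_apply, Equiv.neg_apply, h1, h2] using this
  have QQ : ∀ i, Q i * Q i = Q i := fun i => by
    simp only [Q, mul_sub, sub_mul, (o i).idem, mul_one, one_mul]; abel
  have Qs : ∀ i, star (Q i) = Q i := fun i => by simp only [Q, star_sub, star_one, (o i).sa]
  have QS : ∀ i, Q i ∈ Sos _ := fun i => by have := sos_sq (Q i); rwa [Qs, QQ] at this
  obtain ⟨a, ha⟩ : ∃ a, a = ∑ i, Q i := ⟨_, rfl⟩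
  have aS : a ∈ Sos _ := ha ▸ sum_mem fun i _ => QS i
  obtain ⟨b, sb, ab, nb, aab⟩ := gi1 a (a * a - (0.04 : ℝ) • a) aS (by
    convert add_mem (add_mem (S 0 1 (by decide)) (S 0 2 (by decide))) (S 1 2 (by decide)) using 1
    simp only [ha, Fin.sum_univ_three, mul_add, add_mul, QQ]
    module) 0.04 (by norm_num)
  rw [sub_self, norm_zero, mul_zero, norm_le_zero_iff, sub_eq_zero] at aab
  obtain ⟨p, hp⟩ : ∃ p, p = 1 - a * b := ⟨_, rfl⟩
  have Ap : a * p = 0 := by rw [hp, mul_sub, aab, mul_one, sub_self]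
  have Qp : ∀ i, Q i * p = 0 := fun i => by
    have := pos1 (Q i * p) _ (sos_conj (sum_mem (t := Finset.univ.erase i) fun j _ => QS j) p)
    rw [star_mul, Qs, mul_assoc, ← mul_assoc (Q i), QQ, mul_assoc, ← mul_add, ← add_mul,
      Finset.add_sum_erase _ _ (Finset.mem_univ i), ← ha, Ap, mul_zero, norm_zero] at this
    exact norm_eq_zero.1 (mul_self_eq_zero.1 (le_antisymm this (mul_self_nonneg _)))
  have Gp : ∀ g, π g * p = p := fun g => by
    have hg : g ∈ Subgroup.closure {g | ∃ i s, X i s = g} := hX ▸ Subgroup.mem_top g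
    induction hg using Subgroup.closure_induction with
    | mem x hx =>
      obtain ⟨i, s, rfl⟩ := hx
      have e : (avg fun a => π (X i a)) * p = p := by
        have := Qp i
        simp only [Q, sub_mul, one_mul] at this
        exact (sub_eq_zero.1 this).symm
      rw [← e, ← mul_assoc, (o i).l]
    | one => simp
    | mul x y _ _ hx hy => rw [map_mul, mul_assoc, hy, hx]
    | inv x _ hx =>
      conv_lhs => rw [← hx]
      rw [← mul_assoc, ← map_mul, inv_mul_cancel, map_one, one_mul]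
  obtain ⟨v, hv, hv'⟩ := h (Finset.univ.image fun q : Fin 3 × F => X q.1 q.2) (1 / 200)
    (by norm_num)
  refine ⟨p v, fun h0 => ?_, fun g => congrArg (fun T : H →L[ℂ] H => T v) (Gp g)⟩
  have h1 : ∀ i, ‖Q i v‖ ≤ 1 / 200 := fun i => by
    have hN : (0 : ℝ) < Fintype.card F := by exact_mod_cast Fintype.card_pos
    have : Q i = avg fun s => 1 - π (X i s) := by
      simp only [Q, avg, Finset.sum_sub_distrib, smul_sub]
      rw [Finset.sum_const, Finset.card_univ, ← Nat.cast_smul_eq_nsmul ℝ, smul_smul,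
        inv_mul_cancel₀ hN.ne', one_smul]
    rw [this, avg, _root_.smul_apply, _root_.sum_apply, norm_smul,
      norm_inv, Real.norm_natCast, inv_mul_le_iff₀ hN]
    refine (norm_sum_le _ _).trans ((Finset.sum_le_card_nsmul _ _ (1 / 200) fun s _ => ?_).trans ?_)
    · have := (hv' _ (Finset.mem_image_of_mem _ (Finset.mem_univ (i, s)))).le
      rw [norm_sub_rev] at this
      exact this
    · simp
  have h2 : ‖a v‖ ≤ 3 / 200 := by
    rw [ha, Fin.sum_univ_three]
    have := norm_add₃_le (a := Q 0 v) (b := Q 1 v) (c := Q 2 v)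
    have := h1 0
    have := h1 1
    have := h1 2
    change ‖Q 0 v + Q 1 v + Q 2 v‖ ≤ _
    linarith
  have h3 : v = b (a v) := by
    rw [hp, ab] at h0
    exact sub_eq_zero.1 h0
  have h4 := b.le_opNorm (a v)
  rw [← h3, hv] at h4
  have : ‖b‖ * ‖a v‖ ≤ 2 / 0.04 * (3 / 200) := mul_le_mul nb h2 (norm_nonneg _) (by norm_num)
  norm_num at this
  linarith

end Pool.Agent.H.MP_5f0000_al
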