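import Pool.Agent.H.MP_5f0000_al.A

set_option autoImplicit false
set_option linter.unusedSectionVars false
set_option linter.unusedSimpArgs false
set_option linter.dupNamespace false

namespace Pool.Agent.H.MP_5f0000_al

open scoped MatrixGroups LinearAlgebra.Projectivization Pointwise commutatorElement

abbrev F := ZMod 17
instance : Fact (Nat.Prime 17) := ⟨by norm_num⟩

structure Dat (K : Type) [Field K] where
  σ : K →+* K
  θ : K
  hσ : ∀ x, σ (σ x) = x
  hθ : θ * σ θ = 1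
  h6 : θ ^ 6 ≠ 1
  hK : ∀ R : Subring K, (∃ r ∈ R, σ r ≠ r) → R = ⊤

variable {K : Type} [Field K] [Algebra F K] (D : Dat K)

namespace Dat

abbrev V (K : Type) := Fin 3 → K

def ι : K := D.σ D.θ - D.θ

lemma θ_ne : D.θ ≠ 0 := left_ne_zero_of_mul_eq_one D.hθ
lemma σθ : D.σ D.θ = D.θ⁻¹ := eq_inv_of_mul_eq_one_right D.hθ
lemma σι : D.σ D.ι = -D.ι := by simp [ι, D.hσ]
lemma ι_ne : D.ι ≠ 0 := fun h => D.h6 (by
  have h1 := D.hθ
  rw [sub_eq_zero.1 h] at h1
  linear_combination (D.θ ^ 4 + D.θ ^ 2 + 1) * h1)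
lemma σF (a : F) : D.σ (algebraMap F K a) = algebraMap F K a :=
  DFunLike.congr_fun (RingHom.ext_zmod (D.σ.comp (algebraMap F K)) (algebraMap F K)) a
omit D in
lemma two_ne : (2 : K) ≠ 0 := fun h => (by decide : (2 : F) ≠ 0)
  ((algebraMap F K).injective (by rw [map_ofNat, h, map_zero]))

def om (y : V K) : V K →ₗ[K] K where
  toFun x := x 0 * D.σ (y 2) - x 2 * D.σ (y 0) + D.ι * x 1 * D.σ (y 1)
  map_add' a b := by simp; ring
  map_smul' a b := by simp; ring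

lemma om_def (x y : V K) :
    D.om y x = x 0 * D.σ (y 2) - x 2 * D.σ (y 0) + D.ι * x 1 * D.σ (y 1) := rfl

lemma om_symm (x y : V K) : D.om x y = -D.σ (D.om y x) := by
  simp [om_def, D.hσ, σι]; ring

lemma om_add (x y z : V K) : D.om (y + z) x = D.om y x + D.om z x := by simp [om_def]; ring
lemma om_smul (a : K) (x y : V K) : D.om (a • y) x = D.σ a * D.om y x := by simp [om_def]; ring

abbrev GLV (K : Type) [Field K] := (Module.End K (V K))ˣ

def Gam : Subgroup (GLV K) where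
  carrier := {g | ∀ x y : V K, D.om (g • y) (g • x) = D.om y x}
  one_mem' := by simp
  mul_mem' {a b} ha hb x y := by rw [mul_smul, mul_smul, ha, hb]
  inv_mem' {a} ha x y := by rw [← ha, smul_inv_smul, smul_inv_smul]

structure Pr (x y : V K) : Prop where
  xx : D.om x x = 0
  yy : D.om y y = 0
  xy : D.om y x = 1

variable {D}

lemma Pr.yx {x y : V K} (h : D.Pr x y) : D.om x y = -1 := by rw [om_symm, h.xy, map_one]

noncomputable def f0 (D : Dat K) (x y : V K) (g : SL(2, F)) : Module.End K (V K) :=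
  1 + ((algebraMap F K (g 0 0) - 1) • D.om y - algebraMap F K (g 0 1) • D.om x).smulRight x
    + (algebraMap F K (g 1 0) • D.om y - (algebraMap F K (g 1 1) - 1) • D.om x).smulRight y

lemma f0_apply (x y z : V K) (g : SL(2, F)) : D.f0 x y g z = z +
    ((algebraMap F K (g 0 0) - 1) * D.om y z - algebraMap F K (g 0 1) * D.om x z) • x +
    (algebraMap F K (g 1 0) * D.om y z - (algebraMap F K (g 1 1) - 1) * D.om x z) • y := rfl

noncomputable def ff {x y : V K} (h : D.Pr x y) : SL(2, F) →* GLV K :=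
  MonoidHom.toHomUnits
  { toFun := D.f0 x y
    map_one' := LinearMap.ext fun z => by simp [f0_apply]
    map_mul' := fun g g' => LinearMap.ext fun z => by
      simp only [Module.End.mul_apply, f0_apply, map_add, map_smul, h.xx, h.yy, h.xy, h.yx,
        Matrix.SpecialLinearGroup.coe_mul, Matrix.mul_apply, Fin.sum_univ_two, map_mul,
        smul_eq_mul]
      module }

lemma ff_smul {x y : V K} (h : D.Pr x y) (g : SL(2, F)) (z : V K) : ff h g • z = D.f0 x y g z := rfl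

def A : V K := ![1, 0, 0]
def B : V K := ![0, 0, 1]
def E : V K := ![0, 1, 0]
def C (D : Dat K) : V K := ![D.θ, 1, 1]

lemma pAB : D.Pr A B := ⟨by simp [om_def, A], by simp [om_def, B], by simp [om_def, A, B]⟩
lemma pAC : D.Pr A D.C := ⟨by simp [om_def, A], by simp [om_def, C, ι], by simp [om_def, A, C]⟩
lemma pCB : D.Pr D.C (D.θ • B) := ⟨by simp [om_def, C, ι], by simp [om_def, B],
  by simp [om_def, B, C, D.hθ]⟩

def P (D : Dat K) : Fin 3 → V K := ![A, D.C, B]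

noncomputable def XX (D : Dat K) : Fin 3 → F → GLV K :=
  ![fun s => ff D.pAB (up (-s)), fun s => ff D.pAC (lo s), fun s => ff D.pAB (lo s)]

lemma up_smul {x y : V K} (h : D.Pr x y) (s : F) (z : V K) :
    ff h (up (-s)) • z = z + (algebraMap F K s * D.om x z) • x := by
  simp [ff_smul, f0_apply, up_val]

lemma lo_smul {x y : V K} (h : D.Pr x y) (s : F) (z : V K) :
    ff h (lo s) • z = z + (algebraMap F K s * D.om y z) • y := by
  simp [ff_smul, f0_apply, lo_val]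

lemma XX_smul (i : Fin 3) (s : F) (z : V K) :
    D.XX i s • z = z + (algebraMap F K s * D.om (D.P i) z) • D.P i := by
  fin_cases i
  · exact up_smul _ s z
  · exact lo_smul _ s z
  · exact lo_smul _ s z

omit D in
lemma gl_ext {g h : GLV K} (e : ∀ z : V K, g • z = h • z) : g = h := Units.ext (LinearMap.ext e)

lemma P_iso (i : Fin 3) : D.om (D.P i) (D.P i) = 0 := by
  fin_cases i
  exacts [D.pAB.xx, D.pAC.yy, D.pAB.yy]

lemma P_ne (i : Fin 3) : D.P i ≠ 0 := by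
  fin_cases i <;> simp [P, A, B, C]

lemma XX_mem (i : Fin 3) (s : F) : D.XX i s ∈ D.Gam := fun x y => by
  rw [XX_smul, XX_smul, om_add, om_smul, map_add, map_add, map_smul, map_smul, P_iso,
    D.om_symm y (D.P i), map_mul, σF]
  simp only [smul_eq_mul]; ring

lemma pairs (i j : Fin 3) (hij : i < j) :
    ∃ f : SL(2, F) →* GLV K, (∀ s, f (up (-s)) = D.XX i s) ∧ ∀ s, f (lo s) = D.XX j s := by
  fin_cases i <;> fin_cases j <;> try simp at hij
  · exact ⟨ff D.pAC, fun s => gl_ext fun z => (up_smul _ s z).trans (XX_smul 0 s z).symm,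
      fun s => rfl⟩
  · exact ⟨ff D.pAB, fun s => rfl, fun s => rfl⟩
  · refine ⟨ff D.pCB, fun s => gl_ext fun z => (up_smul _ s z).trans (XX_smul 1 s z).symm,
      fun s => gl_ext fun z => (lo_smul _ s z).trans (Eq.trans ?_ (XX_smul 2 s z).symm)⟩
    rw [om_smul, smul_smul]
    congr 2
    change _ = _ * D.om B z
    linear_combination (algebraMap F K s * D.om B z) * D.hθ

variable (D) in
def H : Subgroup (GLV K) := Subgroup.closure {g | ∃ i s, D.XX i s = g}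

lemma XX_H (i : Fin 3) (s : F) : D.XX i s ∈ D.H := Subgroup.subset_closure ⟨i, s, rfl⟩

lemma H_le : D.H ≤ D.Gam := (Subgroup.closure_le _).2 (by rintro _ ⟨i, s, rfl⟩; exact XX_mem i s)

lemma H_om (g : D.H) (x y : V K) : D.om (g • y) (g • x) = D.om y x := H_le g.2 x y

lemma mem_of {f : SL(2, F) →* GLV K} {i j : Fin 3} (h1 : ∀ s, f (up (-s)) = D.XX i s)
    (h2 : ∀ s, f (lo s) = D.XX j s) (g : SL(2, F)) : f g ∈ D.H :=
  sl_gen f _ (fun s => by rw [← neg_neg s, h1]; exact XX_H _ _) (fun s => h2 s ▸ XX_H _ _) g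

lemma mAB (g : SL(2, F)) : ff D.pAB g ∈ D.H := mem_of (i := 0) (j := 2) (fun _ => rfl) (fun _ => rfl) g
lemma mAC (g : SL(2, F)) : ff D.pAC g ∈ D.H := mem_of (i := 0) (j := 1)
  (fun s => gl_ext fun z => (up_smul _ s z).trans (XX_smul 0 s z).symm) (fun _ => rfl) g
lemma mCB (g : SL(2, F)) : ff D.pCB g ∈ D.H := by
  refine mem_of (i := 1) (j := 2)
    (fun s => gl_ext fun z => (up_smul _ s z).trans (XX_smul 1 s z).symm)
    (fun s => gl_ext fun z => (lo_smul _ s z).trans (Eq.trans ?_ (XX_smul 2 s z).symm)) g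
  rw [om_smul, smul_smul]
  congr 2
  change _ = _ * D.om B z
  linear_combination (algebraMap F K s * D.om B z) * D.hθ

variable (D) in
def U0 : Subgroup D.H where
  carrier := {g | g • (A : V K) = A ∧ ∀ y : V K, D.om A y = 0 → ∃ c : K, g • y = y + c • A}
  one_mem' := ⟨one_smul _ _, fun y _ => ⟨0, by simp⟩⟩
  mul_mem' := by
    rintro a b ⟨a1, a2⟩ ⟨b1, b2⟩
    refine ⟨by rw [mul_smul, b1, a1], fun y hy => ?_⟩
    obtain ⟨c, hc⟩ := a2 y hy
    obtain ⟨d, hd⟩ := b2 y hy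
    exact ⟨c + d, by rw [mul_smul, hd, smul_add, hc, smul_comm, a1]; module⟩
  inv_mem' := by
    rintro a ⟨a1, a2⟩
    have a3 : a⁻¹ • (A : V K) = A := inv_smul_eq_iff.2 a1.symm
    refine ⟨a3, fun y hy => ?_⟩
    obtain ⟨c, hc⟩ := a2 y hy
    refine ⟨-c, inv_smul_eq_iff.2 ?_⟩
    rw [smul_add, hc, smul_comm, a1]; module

lemma U0_conj (n g : D.H) (μ : K) (hn : n • (A : V K) = μ • A) (hg : g ∈ D.U0) :
    n * g * n⁻¹ ∈ D.U0 := by
  have hμ : μ ≠ 0 := by
    rintro rfl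
    exact P_ne (D := D) 0 ((smul_eq_zero_iff_eq n).1 (hn.trans (zero_smul _ _)))
  have h1 : n⁻¹ • (A : V K) = μ⁻¹ • A := by
    rw [inv_smul_eq_iff, smul_comm, hn, smul_smul, inv_mul_cancel₀ hμ, one_smul]
  refine ⟨by rw [mul_smul, mul_smul, h1, smul_comm g, hg.1, ← h1, smul_inv_smul], fun y hy => ?_⟩
  obtain ⟨c, hc⟩ := hg.2 (n⁻¹ • y) (by
    have := H_om n⁻¹ y A
    rw [h1, om_smul, hy] at this
    exact (mul_eq_zero.1 this).resolve_left (by simpa using hμ))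
  exact ⟨c * μ, by rw [mul_smul, mul_smul, hc, smul_add, smul_inv_smul, smul_comm n, hn, smul_smul]⟩

variable (D) in
def uu (a b : K) (z : V K) : V K := ![z 0 - D.ι * D.σ a * z 1 + b * z 2, z 1 + a * z 2, z 2]

variable (D) in
def Sab (a b : K) : Prop := ∃ g : D.H, ∀ z : V K, g • z = D.uu a b z

lemma mem_U0 {g : D.H} {a b : K} (h : ∀ z : V K, g • z = D.uu a b z) : g ∈ D.U0 := by
  refine ⟨by rw [h]; ext i; fin_cases i <;> simp [uu, A], fun y hy => ⟨-D.ι * D.σ a * y 1, ?_⟩⟩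
  have : y 2 = 0 := by simpa [om_def, A] using hy
  rw [h]; ext i; fin_cases i <;> simp [uu, A, this]; ring

lemma U0_form {g : D.H} (hg : g ∈ D.U0) :
    ∀ z : V K, g • z = D.uu ((g • (B : V K)) 1) ((g • (B : V K)) 0) z := by
  obtain ⟨r, hr⟩ := hg.2 E (by simp [om_def, A, E])
  have h1 := H_om g B A
  have h2 := H_om g E B
  rw [hg.1] at h1
  rw [hr] at h2
  simp [om_def, A] at h1
  have h3 : (g • (B : V K)) 2 = 1 := by rw [h1]; rfl
  generalize hw : g • (B : V K) = w at h2 h3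
  simp [om_def, A, B, E, h3] at h2
  intro z
  have : z = z 0 • A + z 1 • E + z 2 • B := by ext i; fin_cases i <;> simp [A, B, E]
  conv_lhs => rw [this, smul_add, smul_add, smul_comm g, smul_comm g, smul_comm g, hg.1, hr, hw]
  ext i
  fin_cases i <;> simp [uu, A, E, h3]
  · linear_combination (z 1) * h2
  · ring

lemma Sab.mul {a b a' b' : K} (h : D.Sab a b) (h' : D.Sab a' b') :
    D.Sab (a + a') (b + b' - D.ι * D.σ a * a') := by
  obtain ⟨g, hg⟩ := h
  obtain ⟨g', hg'⟩ := h'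
  refine ⟨g * g', fun z => ?_⟩
  rw [mul_smul, hg', hg]
  ext i; fin_cases i <;> simp [uu] <;> ring

lemma Sab.inv {a b : K} (h : D.Sab a b) : D.Sab (-a) (-b - D.ι * D.σ a * a) := by
  obtain ⟨g, hg⟩ := h
  refine ⟨g⁻¹, fun z => ?_⟩
  rw [inv_smul_eq_iff, hg]
  ext i; fin_cases i <;> simp [uu]; ring

lemma Sab.iso {a b : K} (h : D.Sab a b) : b - D.σ b + D.ι * a * D.σ a = 0 := by
  obtain ⟨g, hg⟩ := h
  have := H_om g B B
  rw [hg] at this
  simpa [om_def, uu, B] using this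

def ww : SL(2, F) := ⟨!![0, 1; -1, 0], by simp [Matrix.det_fin_two]⟩
lemma ww_val : ww.1 = !![0, 1; -1, 0] := rfl

lemma ww_smul {x y : V K} (h : D.Pr x y) (z : V K) :
    ff h ww • z = z - (D.om x z + D.om y z) • x + (D.om x z - D.om y z) • y := by
  simp [ff_smul, f0_apply, ww_val]; module

lemma S2 : D.Sab 2 (-2 * D.ι) := by
  refine ⟨⟨_, mul_mem (mAC (-1)) (mAB (-1))⟩, fun z => ?_⟩
  change (ff D.pAC (-1) * ff D.pAB (-1)) • z = _
  have h2 : D.σ 2 = 2 := map_ofNat _ _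
  rw [mul_smul, ff_smul, ff_smul]
  ext i
  fin_cases i <;> simp [f0_apply, om_def, uu, A, B, C, h2, ι, Matrix.vecHead, Matrix.vecTail] <;>
    ring

lemma Sgam {a b : K} (h : D.Sab a b) : ∃ b', D.Sab (-D.θ ^ 3 * a) b' := by
  obtain ⟨g, hg⟩ := h
  obtain ⟨n, hn⟩ : ∃ n : D.H, ∀ z : V K, n • z = ff D.pAC ww • ff D.pCB ww • ff D.pAB ww • z :=
    ⟨⟨_, mul_mem (mul_mem (mAC ww) (mCB ww)) (mAB ww)⟩, fun z => rfl⟩
  have h0 := D.θ_ne
  have h1 : n • (A : V K) = (-D.θ⁻¹) • A := by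
    rw [hn]; ext i
    fin_cases i <;> simp [ww_smul, om_def, A, B, C, σθ, ι] <;> field_simp <;> ring
  have h2 : (n • (E : V K)) 1 = D.θ ^ 2 := by
    rw [hn]; simp [ww_smul, om_def, A, B, C, E, σθ, ι]; field_simp; ring
  have h3 : (n • (B : V K)) 2 = -D.θ⁻¹ := by
    rw [hn]; simp [ww_smul, om_def, A, B, C, σθ, ι]; field_simp; ring
  have h4 := U0_form (U0_conj n g _ h1 (mem_U0 hg))
  refine ⟨((n * g * n⁻¹) • (B : V K)) 0, n * g * n⁻¹, fun z => (h4 z).trans ?_⟩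
  congr 1
  have h5 := congrFun (h4 (n • B)) 1
  have h6 : D.uu a b B = b • A + a • E + B := by ext i; fin_cases i <;> simp [uu, A, B, E]
  generalize ((n * g * n⁻¹) • (B : V K)) 1 = a' at h5 ⊢
  generalize ((n * g * n⁻¹) • (B : V K)) 0 = b' at h5
  rw [mul_smul, inv_smul_smul, mul_smul, hg, h6, smul_add, smul_add, smul_comm n b, smul_comm n a,
    h1] at h5
  simp only [Pi.add_apply, Pi.smul_apply, h2] at h5
  simp [uu, A, h2, h3] at h5
  field_simp at h5
  linear_combination h5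

lemma S_all (a : K) : ∃ b, D.Sab a b := by
  let R : Subring K :=
    { carrier := {r | ∀ a, (∃ b, D.Sab a b) → ∃ b, D.Sab (r * a) b}
      mul_mem' := fun {r s} hr hs a h => by rw [mul_assoc]; exact hr _ (hs a h)
      one_mem' := fun a h => by rwa [one_mul]
      add_mem' := fun {r s} hr hs a h => by
        obtain ⟨b, hb⟩ := hr a h
        obtain ⟨c, hc⟩ := hs a h
        rw [add_mul]; exact ⟨_, hb.mul hc⟩
      zero_mem' := fun a ⟨b, hb⟩ => by
        have := hb.mul hb.inv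
        rw [add_neg_cancel] at this
        rw [zero_mul]; exact ⟨_, this⟩
      neg_mem' := fun {r} hr a h => by
        obtain ⟨b, hb⟩ := hr a h
        rw [neg_mul]; exact ⟨_, hb.inv⟩ }
  have hR : R = ⊤ := D.hK R ⟨-D.θ ^ 3, fun a ⟨b, hb⟩ => Sgam hb, fun h => D.h6 (by
    rw [map_neg, map_pow, neg_inj] at h
    have := D.hθ
    calc D.θ ^ 6 = (D.θ * D.σ D.θ) ^ 3 := by rw [mul_pow, h]; ring
      _ = 1 := by rw [this, one_pow])⟩
  have := (show a / 2 ∈ R by rw [hR]; trivial) 2 ⟨_, S2⟩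
  rwa [div_mul_cancel₀ _ two_ne] at this

lemma S_full (a b : K) (h : b - D.σ b + D.ι * a * D.σ a = 0) : D.Sab a b := by
  obtain ⟨b', hb'⟩ := S_all (D := D) a
  have h1 := hb'.iso
  obtain ⟨b1, h2⟩ := S_all (D := D) ((b - b') / (2 * D.ι))
  obtain ⟨b2, h3⟩ := S_all (D := D) 1
  have h4 := ((h2.mul h3).mul (h3.mul h2).inv).mul hb'
  have h5 : D.σ b = D.σ b' + (b - b') := by linear_combination h1 - h
  have h6 : D.σ 2 = 2 := map_ofNat _ _
  have := D.ι_ne
  have := two_ne (K := K)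
  convert h4 using 1
  · ring
  · simp only [map_add, map_neg, map_div₀, map_sub, map_mul, map_one, h5, h6, σι]
    field_simp
    ring

variable (D) in
def X : SubMulAction D.H (ℙ K (V K)) where
  carrier := {x | ∃ v hv, Projectivization.mk K v hv = x ∧ D.om v v = 0}
  smul_mem' := by
    rintro g _ ⟨v, hv, rfl, h⟩
    exact ⟨g • v, _, rfl, by rw [H_om, h]⟩

def pt (v : V K) (hv : v ≠ 0) (h : D.om v v = 0) : D.X := ⟨_, v, hv, rfl, h⟩

lemma smul_pt_eq (g : D.H) (v w : V K) (hv hw h h') :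
    g • pt (D := D) v hv h = pt w hw h' ↔ ∃ a : K, a • w = g • v := by
  rw [Subtype.ext_iff]
  exact Projectivization.mk_eq_mk_iff' K (g • v) w ((smul_ne_zero_iff_ne g).2 hv) hw

lemma ex_pt (x : D.X) : ∃ v hv h, x = pt v hv h := by
  obtain ⟨_, v, hv, rfl, h⟩ := x
  exact ⟨v, hv, h, rfl⟩

variable (D) in
def pP (i : Fin 3) : D.X := pt (D.P i) (P_ne i) (P_iso i)

lemma ex_U (y : D.X) (hy : y ≠ D.pP 0) : ∃ g ∈ D.U0, g • D.pP 2 = y := by
  obtain ⟨v, hv, h, rfl⟩ := ex_pt y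
  have h2 : v 2 ≠ 0 := fun h2 => hy (by
    have h1 : v 1 = 0 := by simpa [om_def, h2, D.ι_ne] using h
    rw [← one_smul D.H (pt v hv h), pP, smul_pt_eq]
    exact ⟨v 0, by ext i; fin_cases i <;> simp [P, A, h1, h2]⟩)
  have h3 : D.σ (v 2) ≠ 0 := by simpa using h2
  obtain ⟨g, hg⟩ := S_full (D := D) (v 1 / v 2) (v 0 / v 2) (by
    rw [om_def] at h
    simp only [map_div₀]; field_simp; linear_combination h)
  refine ⟨g, mem_U0 hg, (smul_pt_eq _ _ _ _ _ _ _).2 ⟨(v 2)⁻¹, ?_⟩⟩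
  rw [hg]; ext i; fin_cases i <;> simp [uu, P, B, h2, div_eq_inv_mul]

lemma U_fix {g : D.H} (hg : g ∈ D.U0) : g • D.pP 0 = D.pP 0 :=
  (smul_pt_eq _ _ _ _ _ _ _).2 ⟨1, by rw [one_smul]; exact hg.1.symm⟩

lemma U_uniq {g : D.H} (hg : g ∈ D.U0) (h : g • D.pP 2 = D.pP 2) : g = 1 := by
  obtain ⟨a, ha⟩ := (smul_pt_eq _ _ _ _ _ _ _).1 h
  change a • B = g • B at ha
  refine Subtype.ext (gl_ext fun z => (U0_form hg z).trans ?_)
  rw [← ha]
  ext i; fin_cases i <;> simp [uu, B]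

lemma pP_ne (i j : Fin 3) (h : D.om (D.P i) (D.P j) ≠ 0) : D.pP j ≠ D.pP i := fun e => by
  rw [← one_smul D.H (D.pP j), pP, pP, smul_pt_eq] at e
  obtain ⟨a, ha⟩ := e
  rw [one_smul] at ha
  exact h (by rw [← ha, map_smul, P_iso, smul_zero])

lemma ne20 : D.pP 2 ≠ D.pP 0 := pP_ne 0 2 (by simp [om_def, P, A, B])

lemma trans0 (x : D.X) : ∃ g : D.H, g • D.pP 0 = x := by
  by_cases h : x = D.pP 0
  · exact ⟨1, by rw [one_smul, h]⟩
  · obtain ⟨g, -, hg⟩ := ex_U x h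
    refine ⟨g * ⟨_, mAB ww⟩, ?_⟩
    rw [mul_smul, ← hg]
    congr 1
    refine (smul_pt_eq _ _ _ _ _ _ _).2 ⟨-1, ?_⟩
    change (-1 : K) • (B : V K) = ff D.pAB ww • (A : V K)
    rw [ww_smul, D.pAB.xx, D.pAB.xy]; module

lemma U_trans (y z : D.X) (hy : y ≠ D.pP 0) (hz : z ≠ D.pP 0) : ∃ g ∈ D.U0, g • y = z := by
  obtain ⟨g, hg, rfl⟩ := ex_U y hy
  obtain ⟨g', hg', rfl⟩ := ex_U z hz
  exact ⟨g' * g⁻¹, mul_mem hg' (inv_mem hg), by rw [mul_smul, inv_smul_smul]⟩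

lemma trans2 (a b c d : D.X) (h1 : a ≠ b) (h2 : c ≠ d) : ∃ g : D.H, g • a = c ∧ g • b = d := by
  obtain ⟨g, rfl⟩ := trans0 a
  obtain ⟨g', rfl⟩ := trans0 c
  obtain ⟨u, hu, h⟩ := U_trans (g⁻¹ • b) (g'⁻¹ • d) (fun e => h1 (inv_smul_eq_iff.1 e).symm)
    (fun e => h2 (inv_smul_eq_iff.1 e).symm)
  exact ⟨g' * u * g⁻¹, by rw [mul_smul, mul_smul, inv_smul_smul, U_fix hu],
    by rw [mul_smul, mul_smul, h, smul_inv_smul]⟩

variable (D) in
abbrev Himg := (MulAction.toPermHom D.H D.X).range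

variable (D) in
noncomputable abbrev φ : D.H →* D.Himg := (MulAction.toPermHom D.H D.X).rangeRestrict

lemma φ_surj (q : D.Himg) : ∃ g, D.φ g = q := MonoidHom.rangeRestrict_surjective _ q

lemma φ_smul (g : D.H) (x : D.X) : D.φ g • x = g • x := rfl

def Tx (x : D.X) : Subgroup D.H where
  carrier := {g | ∀ z : V K, g • z - z ∈ x.1.submodule}
  one_mem' z := by simp
  mul_mem' {a b} ha hb z := by
    have := add_mem (ha (b • z)) (hb z)
    rwa [sub_add_sub_cancel, ← mul_smul] at this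
  inv_mem' {a} ha z := by
    have := neg_mem (ha (a⁻¹ • z))
    rwa [smul_inv_smul, neg_sub] at this

lemma mem_Tx {v : V K} {hv h} {g : D.H} :
    g ∈ Tx (pt (D := D) v hv h) ↔ ∀ z : V K, ∃ c : K, c • v = g • z - z :=
  forall_congr' fun _ => Submodule.mem_span_singleton

lemma Tx_conj (x : D.X) (h g : D.H) (hg : g ∈ Tx x) : h * g * h⁻¹ ∈ Tx (h • x) := by
  obtain ⟨v, hv, h0, rfl⟩ := ex_pt x
  have : h • pt v hv h0 = pt (h • v) ((smul_ne_zero_iff_ne h).2 hv) (by rw [H_om, h0]) := rfl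
  rw [this, mem_Tx]
  intro z
  obtain ⟨c, hc⟩ := mem_Tx.1 hg (h⁻¹ • z)
  exact ⟨c, by rw [← smul_comm, hc, smul_sub, smul_inv_smul, mul_smul, mul_smul]⟩

lemma Tx_conj' (x : D.X) (h g : D.H) (hg : g ∈ Tx (h • x)) : h⁻¹ * g * h⁻¹⁻¹ ∈ Tx x := by
  have := Tx_conj _ h⁻¹ g hg
  rwa [inv_smul_smul h x] at this

lemma Tx_comm0 (g g' : D.H) (hg : g ∈ Tx (D.pP 0)) (hg' : g' ∈ Tx (D.pP 0)) : g * g' = g' * g := by
  have key : ∀ g ∈ Tx (D.pP 0), g • (A : V K) = A := fun g hg => by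
    obtain ⟨c, hc⟩ := mem_Tx.1 hg A
    obtain ⟨d, hd⟩ := mem_Tx.1 hg B
    have h1 := H_om g A B
    rw [← eq_add_of_sub_eq hc.symm |>.symm, ← eq_add_of_sub_eq hd.symm |>.symm] at h1
    have : c = 0 := by simpa [om_def, P, A, B] using h1
    rw [this, zero_smul] at hc
    exact (sub_eq_zero.1 hc.symm)
  refine Subtype.ext (gl_ext fun z => ?_)
  change (g * g') • z = (g' * g) • z
  obtain ⟨c, hc⟩ := mem_Tx.1 hg z
  obtain ⟨d, hd⟩ := mem_Tx.1 hg' z
  change c • A = _ at hc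
  change d • A = _ at hd
  rw [mul_smul, mul_smul, eq_add_of_sub_eq hc.symm, eq_add_of_sub_eq hd.symm, smul_add, smul_add,
    smul_comm g, smul_comm g', key g hg, key g' hg', eq_add_of_sub_eq hc.symm,
    eq_add_of_sub_eq hd.symm]
  abel

lemma H_ind (S : Subgroup D.Himg) (h : ∀ i s, D.φ ⟨_, XX_H i s⟩ ∈ S) : S = ⊤ := by
  refine (Subgroup.eq_top_iff' S).2 fun q => ?_
  obtain ⟨⟨g, hg⟩, rfl⟩ := φ_surj q
  induction hg using Subgroup.closure_induction with
  | mem x hx => obtain ⟨i, s, rfl⟩ := hx; exact h i s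
  | one => exact (map_one D.φ).symm ▸ one_mem S
  | mul x y hx hy h1 h2 => exact (map_mul D.φ ⟨x, hx⟩ ⟨y, hy⟩).symm ▸ mul_mem h1 h2
  | inv x hx h1 => exact (map_inv D.φ ⟨x, hx⟩).symm ▸ inv_mem h1

omit D in
lemma cj1 {G G' : Type} [Group G] [Group G'] (f : G →* G') (h g : G) :
    f h * f (h⁻¹ * g * h⁻¹⁻¹) * (f h)⁻¹ = f g := by simp [mul_assoc]

omit D in
lemma cj2 {G G' : Type} [Group G] [Group G'] (f : G →* G') (h g : G) :
    f (h * g * h⁻¹) = f h * f g * (f h)⁻¹ := by simp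

variable (D) in
noncomputable def iwa : MulAction.IwasawaStructure D.Himg D.X where
  T x := (Tx x).map D.φ
  is_comm x := by
    obtain ⟨h, rfl⟩ := trans0 x
    refine ⟨⟨?_⟩⟩
    rintro ⟨_, g, hg, rfl⟩ ⟨_, g', hg', rfl⟩
    refine Subtype.ext ?_
    change D.φ g * D.φ g' = D.φ g' * D.φ g
    have h1 := Tx_conj _ h⁻¹ g hg
    have h2 := Tx_conj _ h⁻¹ g' hg'
    rw [inv_smul_smul] at h1 h2
    have := Tx_comm0 _ _ h1 h2
    rw [← map_mul, ← map_mul]
    congr 1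
    exact mul_right_cancel (b := h) (by simpa [mul_assoc] using this)
  is_conj q x := by
    obtain ⟨h, rfl⟩ := φ_surj q
    ext k
    change k ∈ (Tx (h • x)).map D.φ ↔ _
    simp only [Subgroup.mem_smul_pointwise_iff_exists, MulAut.smul_def, MulAut.conj_apply,
      Subgroup.mem_map]
    constructor
    · rintro ⟨g, hg, rfl⟩
      exact ⟨D.φ (h⁻¹ * g * h⁻¹⁻¹), ⟨_, Tx_conj' x h g hg, rfl⟩, cj1 D.φ h g⟩
    · rintro ⟨_, ⟨g, hg, rfl⟩, rfl⟩
      exact ⟨_, Tx_conj _ h g hg, cj2 D.φ h g⟩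
  is_generator := H_ind _ fun i s => Subgroup.mem_iSup_of_mem (D.pP i)
    ⟨_, mem_Tx.2 fun z => ⟨_, (sub_eq_of_eq_add' (XX_smul i s z)).symm⟩, rfl⟩

omit D in
lemma sl_perf (g : SL(2, F)) : g ∈ commutator SL(2, F) := by
  let d : SL(2, F) := ⟨!![2, 0; 0, 9], by simp [Matrix.det_fin_two]; decide⟩
  refine sl_gen (MonoidHom.id _) _ (fun s => ?_) (fun s => ?_) g
  · have : up s = ⁅d, up (6 * s)⁆ := by revert s; decide +kernel
    rw [MonoidHom.id_apply, this]
    exact Subgroup.commutator_mem_commutator (Subgroup.mem_top _) (Subgroup.mem_top _)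
  · have : lo s = ⁅d⁻¹, lo (6 * s)⁆ := by revert s; decide +kernel
    rw [MonoidHom.id_apply, this]
    exact Subgroup.commutator_mem_commutator (Subgroup.mem_top _) (Subgroup.mem_top _)

lemma perf : commutator D.Himg = ⊤ := by
  have key : ∀ (f : SL(2, F) →* D.Himg) g, f g ∈ commutator D.Himg := fun f g => by
    have := Subgroup.mem_map_of_mem f (sl_perf g)
    rw [commutator, Subgroup.map_commutator] at this
    exact Subgroup.commutator_mono le_top le_top this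
  refine H_ind _ fun i s => ?_
  fin_cases i
  · exact key (D.φ.comp ((ff D.pAB).codRestrict _ mAB)) (up (-s))
  · exact key (D.φ.comp ((ff D.pAC).codRestrict _ mAC)) (lo s)
  · exact key (D.φ.comp ((ff D.pAB).codRestrict _ mAB)) (lo s)

theorem simple : IsSimpleGroup D.Himg := by
  have h2 : MulAction.IsMultiplyPretransitive D.Himg D.X 2 :=
    MulAction.is_two_pretransitive_iff.2 fun h1 h2 => by
      obtain ⟨g, hg⟩ := trans2 _ _ _ _ h1 h2
      exact ⟨D.φ g, hg⟩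
  have := MulAction.isPreprimitive_of_is_two_pretransitive h2
  have : Nontrivial D.Himg := by
    obtain ⟨g, hg⟩ := trans0 (D.pP 2)
    exact ⟨D.φ g, 1, fun h => ne20 (by rw [← hg, ← φ_smul, h, one_smul])⟩
  exact D.iwa.isSimpleGroup perf inferInstance

theorem card_le [Finite K] : Nat.card K ≤ Nat.card D.X ∧ Nat.card D.X ≤ Nat.card D.Himg := by
  constructor
  · choose b g hg using S_all (D := D)
    refine Nat.card_le_card_of_injective (fun a => g a • D.pP 2) fun a a' h => ?_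
    have h1 := U_uniq (mul_mem (inv_mem (mem_U0 (hg a'))) (mem_U0 (hg a)))
      (by rw [mul_smul, inv_smul_eq_iff]; exact h)
    have h2 := hg a B
    rw [← inv_mul_eq_one.1 h1, hg a'] at h2
    simpa [uu, B] using (congrFun h2 1).symm
  · refine Nat.card_le_card_of_surjective (fun q : D.Himg => q • D.pP 0) fun x => ?_
    obtain ⟨g, hg⟩ := trans0 x
    exact ⟨D.φ g, hg⟩

theorem bn : ∃ (x : D.X) (U : Subgroup D.Himg), (∀ u ∈ U, D.Himg.subtype u x = x) ∧
    (∀ u ∈ U, ∀ h : D.Himg, D.Himg.subtype h x = x → h * u * h⁻¹ ∈ U) ∧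
    ∀ y z : D.X, y ≠ x → z ≠ x → ∃! u : D.Himg, u ∈ U ∧ D.Himg.subtype u y = z := by
  refine ⟨D.pP 0, D.U0.map D.φ, ?_, ?_, fun y z hy hz => ?_⟩
  · rintro _ ⟨g, hg, rfl⟩; exact U_fix hg
  · rintro _ ⟨g, hg, rfl⟩ h hh
    obtain ⟨n, rfl⟩ := φ_surj h
    obtain ⟨a, ha⟩ := (smul_pt_eq n _ _ _ _ _ _).1 hh
    exact ⟨_, U0_conj n g a ha.symm hg, by simp⟩
  · obtain ⟨g, hg, h⟩ := U_trans y z hy hz
    refine ⟨D.φ g, ⟨⟨g, hg, rfl⟩, h⟩, ?_⟩
    rintro _ ⟨⟨g', hg', rfl⟩, h'⟩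
    obtain ⟨k, hk, rfl⟩ := ex_U y hy
    have h1 := U_uniq (mul_mem (inv_mem (mul_mem hg hk)) (mul_mem hg' hk))
      (by rw [mul_smul, inv_smul_eq_iff, mul_smul, mul_smul, h]; exact h')
    rw [mul_right_cancel (inv_mul_eq_one.1 h1)]

end Dat

end Pool.Agent.H.MP_5f0000_al
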