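import Pool.Agent.H.MP_5f0000_al.B

set_option autoImplicit false
set_option linter.unusedSectionVars false
set_option linter.unusedSimpArgs false
set_option linter.dupNamespace false

namespace Pool.Agent.H.MP_5f0000_al

open scoped MatrixGroups

abbrev KK (k : ℕ) := GaloisField 17 (2 ^ (k + 1))

lemma cardK (k : ℕ) : Nat.card (KK k) = 17 ^ (2 ^ (k + 1)) := GaloisField.card 17 _ (by positivity)

lemma exD (k : ℕ) : Nonempty (Dat (KK k)) := by
  let _ := Fintype.ofFinite (KK k)
  have hc : Fintype.card (KK k) = 17 ^ 2 ^ k * 17 ^ 2 ^ k := by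
    rw [← Nat.card_eq_fintype_card, cardK, ← pow_add]; congr 1; ring
  obtain ⟨q, hq⟩ : ∃ q, 17 ^ 2 ^ k = q + 1 := ⟨17 ^ 2 ^ k - 1, by
    have : 0 < 17 ^ 2 ^ k := by positivity
    omega⟩
  have hq2 : 17 ≤ q + 1 := hq ▸ Nat.le_self_pow (by positivity) 17
  obtain ⟨g, hg⟩ := IsCyclic.exists_ofOrder_eq_natCard (α := (KK k)ˣ)
  rw [Nat.card_units, Nat.card_eq_fintype_card, hc, hq,
    show (q + 1) * (q + 1) - 1 = q * (q + 2) by ring_nf; omega] at hg
  refine ⟨⟨iterateFrobenius (KK k) 17 (2 ^ k), ((g ^ q : (KK k)ˣ) : KK k), fun x => ?_, ?_, ?_, ?_⟩⟩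
  · rw [iterateFrobenius_def, iterateFrobenius_def, ← pow_mul, ← hc, FiniteField.pow_card]
  · rw [iterateFrobenius_def, hq, ← pow_succ', ← Units.val_pow_eq_pow_val, ← pow_mul, ← hg,
      pow_orderOf_eq_one, Units.val_one]
  · rw [← Units.val_pow_eq_pow_val, ← pow_mul, Ne, Units.val_eq_one, ← orderOf_dvd_iff_pow_eq_one,
      hg, Nat.mul_dvd_mul_iff_left (by omega)]
    exact fun h => by have := Nat.le_of_dvd (by norm_num) h; omega
  · rintro R ⟨r, hr, hne⟩
    let S : Subfield (KK k) :=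
      { R with
        inv_mem' := fun x hx => by
          rcases eq_or_ne x 0 with rfl | h0
          · rw [inv_zero]; exact R.zero_mem
          · have h1 : x * x ^ (q * (q + 2) - 1) = 1 := by
              rw [← pow_succ', Nat.sub_add_cancel (Nat.mul_pos (by omega) (by omega)),
                show q * (q + 2) = Fintype.card (KK k) - 1 by rw [hc, hq]; ring_nf; omega]
              exact FiniteField.pow_card_sub_one_eq_one x h0
            rw [← eq_inv_of_mul_eq_one_right h1]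
            exact R.pow_mem hx _ }
    have h1 : Nat.card (KK k) = Nat.card S ^ Module.finrank S (KK k) :=
      Module.natCard_eq_pow_finrank
    have h2 : Module.finrank S (KK k) ≠ 0 := Module.finrank_pos.ne'
    obtain ⟨m, -, hm⟩ := (Nat.dvd_prime_pow (by norm_num : Nat.Prime 17)).1
      (cardK k ▸ h1 ▸ dvd_pow_self (Nat.card S) h2)
    rw [cardK, hm, ← pow_mul, Nat.pow_right_inj (by norm_num)] at h1
    obtain ⟨i, hi, rfl⟩ := (Nat.dvd_prime_pow Nat.prime_two).1 ⟨_, h1⟩
    rcases hi.lt_or_eq with hi | rfl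
    · exfalso
      let _ := Fintype.ofFinite S
      have h3 := congrArg Subtype.val (FiniteField.pow_card_pow (2 ^ (k - i)) (⟨r, hr⟩ : S))
      rw [← Nat.card_eq_fintype_card, hm, ← pow_mul, ← pow_add,
        Nat.add_sub_cancel' (by omega)] at h3
      exact hne h3
    · rw [← cardK] at hm
      have h4 : (S : Set (KK k)) = Set.univ :=
        Set.eq_of_subset_of_ncard_le (Set.subset_univ _) (by rw [Set.ncard_univ, ← hm]; rfl)
      exact eq_top_iff.2 fun x _ => (h4 ▸ Set.mem_univ x : x ∈ (S : Set (KK k)))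

noncomputable def DD (k : ℕ) : Dat (KK k) := (exD k).some

noncomputable def Xs (i : Fin 3) (s : F) : ∀ k, (DD k).H := fun _ => ⟨_, Dat.XX_H i s⟩

noncomputable def GG : Subgroup (∀ k, (DD k).H) := Subgroup.closure {g | ∃ i s, Xs i s = g}

noncomputable def XG (i : Fin 3) (s : F) : GG := ⟨Xs i s, Subgroup.subset_closure ⟨i, s, rfl⟩⟩

lemma GG_gen : Subgroup.closure {g | ∃ i s, XG i s = g} = ⊤ := by
  refine Eq.trans ?_ (Subgroup.closure_closure_coe_preimage (k := {g | ∃ i s, Xs i s = g}))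
  congr 1
  ext g
  exact ⟨fun ⟨i, s, h⟩ => ⟨i, s, congrArg Subtype.val h⟩, fun ⟨i, s, h⟩ => ⟨i, s, Subtype.ext h⟩⟩

lemma GG_pairs (i j : Fin 3) (hij : i < j) :
    ∃ f : SL(2, F) →* GG, (∀ s, f (up (-s)) = XG i s) ∧ ∀ s, f (lo s) = XG j s := by
  choose f h1 h2 using fun k => Dat.pairs (D := DD k) i j hij
  let f' : SL(2, F) →* ∀ k, (DD k).H :=
    MonoidHom.pi fun k => (f k).codRestrict _ (Dat.mem_of (h1 k) (h2 k))
  have e1 : ∀ s, f' (up (-s)) = Xs i s := fun s => funext fun k => Subtype.ext (h1 k s)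
  have e2 : ∀ s, f' (lo s) = Xs j s := fun s => funext fun k => Subtype.ext (h2 k s)
  exact ⟨f'.codRestrict GG (sl_gen f' _ (fun s => by rw [← neg_neg s, e1]; exact (XG i _).2)
    fun s => e2 s ▸ (XG j _).2), fun s => Subtype.ext (e1 s), fun s => Subtype.ext (e2 s)⟩

noncomputable def fk (k : ℕ) : GG →* (DD k).Himg :=
  (DD k).φ.comp ((Pi.evalMonoidHom _ k).comp GG.subtype)

lemma fk_surj (k : ℕ) : Function.Surjective (fk k) :=
  MonoidHom.range_eq_top.1 (Dat.H_ind _ fun i s => ⟨XG i s, rfl⟩)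

lemma fk_index (k : ℕ) : k < (fk k).ker.index := by
  rw [Subgroup.index_ker, MonoidHom.range_eq_top.2 (fk_surj k), Subgroup.card_top]
  refine lt_of_lt_of_le ?_ ((Dat.card_le (D := DD k)).1.trans Dat.card_le.2)
  rw [cardK]
  exact ((Nat.lt_succ_self k).trans Nat.lt_two_pow_self).trans (Nat.lt_pow_self (by norm_num))

lemma card3 (k : ℕ) : 3 ≤ Nat.card (DD k).X := by
  refine le_trans ?_ (Dat.card_le (D := DD k)).1
  rw [cardK]
  exact le_trans (by norm_num) (Nat.le_self_pow (by positivity) 17)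

end Pool.Agent.H.MP_5f0000_al
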